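import Pool.Agent.H121.GA.IfA
import Pool.Agent.H168.Y987.Op
import Pool.Agent.H410.Y987.Troot
import Pool.Agent.H800.Y987.Meas
import Pool.Agent.H796.Y987.Sep
import Pool.Agent.H297.Y987.Net

/-! Task GA-NETU (helper619, for helper121): all clip levels. -/

set_option autoImplicit false

open scoped BigOperators InnerProductSpace Topology ENNReal
open Filter MeasureTheory

namespace Pool.Agent.H619.GA

open Pool.Agent.Y662.TR (LL Cf Mw dv hu clp)
open Pool.Agent.TH369.AN (Rz)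
open Pool.Agent.H987.Z (Rs Gr Fr gZ HV)
open Pool.Agent.H987.Y
open Pool.Agent.H121.GA
open Pool.Agent.H297.Y987 (ker_add ker_mono meas_kB)

theorem meas_clpb (b : ℝ) : Measurable (clp b) := by
  unfold clp
  exact measurable_const.max (measurable_const.min measurable_id)

theorem meas_dgb {ι : Type} (b : ℝ) (x y : ι) : Measurable fun V : ι → ℝ => dgb b V x y := by
  unfold dgb
  by_cases h : x = y
  · simp only [if_pos h]
    exact (meas_clpb b).comp (measurable_pi_apply x)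
  · simp only [if_neg h]
    exact measurable_const

theorem meas_kNb {d N : ℕ} (b : ℝ) (t : Lt d → Lt d → ℝ) (x y : Lt d) :
    Measurable fun ω : Om d N => kNb b t ω x y := by
  unfold kNb
  have h1 : Measurable fun p : Ph d N => t (x + ph p) (y + ph p) := measurable_of_countable _
  exact (h1.comp measurable_fst).add ((meas_dgb b x y).comp measurable_snd)

theorem ker_shift {d : ℕ} {h : ℝ} {t : Lt d → Lt d → ℝ} (H : Ker h t) (v : Lt d) :
    Ker h fun x y => t (x + v) (y + v) := by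
  refine ⟨H.h0, fun x y => H.sy _ _, fun x => ?_, fun x => ?_⟩
  · exact (Equiv.addRight v).summable_iff.2 (H.sm (x + v))
  · have h1 : ∑' y : Lt d, |t (x + v) (y + v)| = ∑' y : Lt d, |t (x + v) y| :=
      (Equiv.addRight v).tsum_eq (fun y => |t (x + v) y|)
    rw [h1]
    exact H.le (x + v)

/-- the law of the potential at a site -/
theorem law_site {d N : ℕ} (hN : 0 < N) (ν : Measure ℝ) [IsProbabilityMeasure ν] (x : Lt d)
    (f : ℝ → ENNReal) (hf : Measurable f) :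
    ∫⁻ ω, f (ω.2 x) ∂(PO d N ν) = ∫⁻ v, f v ∂ν := by
  have hu1 : IsProbabilityMeasure (unif (Ph d N)) := (Pool.Agent.H796.Y987.sep d N 0 ν hN).1
  have h1 : (PO d N ν).map Prod.snd = Measure.infinitePi fun _ : Lt d => ν := by
    unfold PO
    rw [Measure.map_snd_prod, measure_univ, one_smul]
  have h2 : (Measure.infinitePi fun _ : Lt d => ν).map (fun V => V x) = ν :=
    (measurePreserving_eval_infinitePi (fun _ : Lt d => ν) x).map_eq
  have h3 : ∫⁻ v, f v ∂ν = ∫⁻ V : Lt d → ℝ, f (V x) ∂(Measure.infinitePi fun _ : Lt d => ν) := by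
    have h4 := lintegral_map (μ := Measure.infinitePi fun _ : Lt d => ν) hf (measurable_pi_apply x)
    rw [← h4, h2]
  have h5 := lintegral_map (μ := PO d N ν) (f := fun V : Lt d → ℝ => f (V x)) (g := Prod.snd)
    (hf.comp (measurable_pi_apply x)) measurable_snd
  rw [h3, ← h1]
  exact h5.symm

theorem law_root {d N n : ℕ} (hN : 0 < N) (ν : Measure ℝ) [IsProbabilityMeasure ν]
    (l : List (Ix (Lt d) n)) (x : Lt d) (f : ℝ → ENNReal) (hf : Measurable f) :
    ∫⁻ W : List (Ix (Lt d) n) → Om d N, f ((W l).2 x)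
      ∂(Measure.infinitePi fun _ : List (Ix (Lt d) n) => PO d N ν) = ∫⁻ v, f v ∂ν := by
  have hP : IsProbabilityMeasure (PO d N ν) := (Pool.Agent.H796.Y987.sep d N 0 ν hN).2.1
  have h2 := (measurePreserving_eval_infinitePi
    (fun _ : List (Ix (Lt d) n) => PO d N ν) l).map_eq
  rw [← law_site hN ν x f hf]
  have h4 := lintegral_map (μ := Measure.infinitePi fun _ : List (Ix (Lt d) n) => PO d N ν)
    (f := fun ω : Om d N => f (ω.2 x)) (g := Function.eval l)
    (hf.comp ((measurable_pi_apply x).comp measurable_snd)) (measurable_pi_apply l)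
  rw [h2] at h4
  exact h4.symm

/-- **GA-NETU** -/
theorem netU (hopb : S_opb) (hclip : S_clip) (hnet : S_netb) : S_netU := by
  have hop : S_op := Pool.Agent.H168.Y987.op
  have htr : S_troot := Pool.Agent.H410.Y987.troot hop
  have hme : S_meas := Pool.Agent.H800.Y987.meas hop
  intro d g α β c C hF θ ε hθ hθ1 hε hε1 N R n t a h0 hN ht
  obtain ⟨ε1, hε1d⟩ : ∃ ε1 : ℝ, ε1 = ε / 20 := ⟨_, rfl⟩
  have he0 : 0 < ε1 := by rw [hε1d]; positivity
  have he1 : ε1 ≤ 1 / 20 := by rw [hε1d]; linarith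
  have hh0 : 0 ≤ h0 := ht.ker.h0
  obtain ⟨h1, hh1⟩ : ∃ h1 : ℝ, h1 = h0 + |a| * (n + 2) + 1 := ⟨_, rfl⟩
  have hn2 : 0 ≤ |a| * ((n : ℝ) + 2) := by positivity
  have hn1 : |a| * ((n : ℝ) + 1) ≤ |a| * ((n : ℝ) + 2) := by
    apply mul_le_mul_of_nonneg_left _ (abs_nonneg a)
    linarith
  have hh1p : 0 < h1 := by rw [hh1]; linarith
  obtain ⟨ρ, hρ⟩ : ∃ ρ : ℝ, ρ = |α| + |β| + 1 := ⟨_, rfl⟩
  have hρ0 : 0 < ρ := by rw [hρ]; positivity
  obtain ⟨b0, hb0, hcl⟩ := hclip θ ε1 h1 ρ c (max C 1) hθ he0 hh1p hρ0 hF.c0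
    (lt_of_lt_of_le one_pos (le_max_right _ _))
  obtain ⟨N', R', σ, hN', hNN', hσ, hnetσ, hmain⟩ :=
    hnet d g α β c C hF θ ε1 hθ hθ1 he0 (he1.trans (by norm_num)) N R n t a h0 b0 hN ht
      (by linarith)
  refine ⟨N', R', σ, hN', hNN', hσ, hnetσ, ?_⟩
  intro b hb ν _ hms e hee hee2 H
  -- the final numerical estimate
  have hfin : (1 + ε1) * ((1 + ε1) * ((1 + ε1) * e + ε1) + ε1) + ε1 ≤ (1 + ε) * e + ε := by
    have h20 : ε = 20 * ε1 := by rw [hε1d]; ring
    rw [h20]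
    nlinarith [mul_nonneg hee he0.le, mul_nonneg (mul_nonneg hee he0.le) he0.le,
      mul_nonneg (mul_nonneg (mul_nonneg hee he0.le) he0.le) he0.le,
      mul_le_mul_of_nonneg_left he1 he0.le,
      mul_le_mul_of_nonneg_left he1 (mul_nonneg he0.le he0.le),
      mul_le_mul_of_nonneg_left he1 (mul_nonneg hee he0.le),
      mul_le_mul_of_nonneg_left he1 (mul_nonneg (mul_nonneg hee he0.le) he0.le)]
  have hmono : ∀ e' : ℝ, e' ≤ (1 + ε) * e + ε →
      PNb b N' (fun x y => t x y + a * kσ σ x y) ν g α β θ 1 e' →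
      PNb b N' (fun x y => t x y + a * kσ σ x y) ν g α β θ 1 ((1 + ε) * e + ε) :=
    fun e' he' hP z hz1 hz2 hz3 hz4 => (hP z hz1 hz2 hz3 hz4).trans he'
  by_cases hbb : b ≤ b0
  · refine hmono _ ?_ (hmain b (by linarith) hbb ν e hee (by linarith) H)
    have h20 : ε = 20 * ε1 := by rw [hε1d]; ring
    rw [h20]
    nlinarith [mul_nonneg hee he0.le]
  have hbb : b0 ≤ b := (not_le.1 hbb).le
  have hg : ∀ z : ℂ, α ≤ z.re → z.re ≤ β → θ ≤ z.im → z.im ≤ 1 →
      |z.re| ≤ ρ ∧ z.im ≤ 2 ∧ c ≤ (g z).im ∧ ‖g z‖ ≤ max C 1 := by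
    intro z hz1 hz2 hz3 hz4
    have h2 : z.im ≤ 2 := by linarith
    have h0 : 0 < z.im := by linarith
    refine ⟨?_, h2, hF.lo z hz1 hz2 h0 h2, (hF.up z hz1 hz2 h0 h2).trans (le_max_left _ _)⟩
    rw [hρ, abs_le]
    constructor
    · have := neg_abs_le α
      have := abs_nonneg β
      linarith
    · have := le_abs_self β
      have := abs_nonneg α
      linarith
  -- the tree
  have hkt : ∀ ω : Om (d + 1) N, Ker h0 (fun x y => t (x + ph ω.1) (y + ph ω.1)) :=
    fun ω => ker_shift ht.ker _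
  have hPO : IsProbabilityMeasure (PO (d + 1) N ν) :=
    (Pool.Agent.H796.Y987.sep (d + 1) N 0 ν (by omega)).2.1
  have hPO' : IsProbabilityMeasure (PO (d + 1) N' ν) :=
    (Pool.Agent.H796.Y987.sep (d + 1) N' 0 ν hN').2.1
  have hkT : ∀ W : List (Ix (Lt (d + 1)) n) → Om (d + 1) N,
      Ker (h0 + |a| * (n + 2)) (kB (fun (ω : Om (d + 1) N) x y => t (x + ph ω.1) (y + ph ω.1))
        true (0 : Lt (d + 1)) a W) := fun W =>
    (htr (Lt (d + 1)) (Om (d + 1) N) n _ h0 hkt true 0 a W).1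
  have hEqT : ∀ b' : ℝ, 0 ≤ b' → ∀ W : List (Ix (Lt (d + 1)) n) → Om (d + 1) N,
      Op (kB (kNb b' t) true (0 : Lt (d + 1)) a W) =
        HW (Op (kB (fun (ω : Om (d + 1) N) x y => t (x + ph ω.1) (y + ph ω.1))
          true (0 : Lt (d + 1)) a W)) b' (fun v : Vt (Lt (d + 1)) n => (W v.1).2 v.2) := by
    intro b' hb' W
    rw [← (hopb.1 _ _ _ b' (hkT W) hb' (fun v : Vt (Lt (d + 1)) n => (W v.1).2 v.2)).2]
    congr 1
    funext v v'
    exact hopb.2.2 (d + 1) N n t true a b' W v v'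
  have hKerT : ∀ b' : ℝ, 0 ≤ b' → ∀ W : List (Ix (Lt (d + 1)) n) → Om (d + 1) N,
      Ker (h0 + |a| * (n + 2) + b') (kB (kNb b' t) true (0 : Lt (d + 1)) a W) := by
    intro b' hb' W
    have h1 := (hopb.1 _ _ _ b' (hkT W) hb' (fun v : Vt (Lt (d + 1)) n => (W v.1).2 v.2)).1
    have h2 : kB (kNb b' t) true (0 : Lt (d + 1)) a W = fun v v' =>
        kB (fun (ω : Om (d + 1) N) x y => t (x + ph ω.1) (y + ph ω.1)) true (0 : Lt (d + 1)) a W v v' +
        dgb b' (fun v : Vt (Lt (d + 1)) n => (W v.1).2 v.2) v v' := by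
      funext v v'
      exact hopb.2.2 (d + 1) N n t true a b' W v v'
    rw [h2]
    exact h1
  have hstep1 : ∀ z : ℂ, α ≤ z.re → z.re ≤ β → θ ≤ z.im → z.im ≤ 1 →
      ∫ W, hu (GB (kNb (N := N) b0 t) true 0 a W z) (g z) ^ 2
        ∂(Measure.infinitePi fun _ : List (Ix (Lt (d + 1)) n) => PO (d + 1) N ν) ≤
          (1 + ε1) * e + ε1 := by
    intro z hz1 hz2 hz3 hz4
    obtain ⟨g1, g2, g3, g4⟩ := hg z hz1 hz2 hz3 hz4
    have key := hcl (Vt (Lt (d + 1)) n) (List (Ix (Lt (d + 1)) n) → Om (d + 1) N)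
      (Measure.infinitePi fun _ : List (Ix (Lt (d + 1)) n) => PO (d + 1) N ν)
      (fun W => Op (kB (fun (ω : Om (d + 1) N) x y => t (x + ph ω.1) (y + ph ω.1))
        true (0 : Lt (d + 1)) a W)) (fun W v => (W v.1).2 v.2) (([] : List (Ix (Lt (d + 1)) n)), 0)
      (fun W => (hop _ _ _ (hkT W)).2.2.1)
      (fun W => ((hop _ _ _ (hkT W)).2.1).trans (by rw [hh1]; linarith))
      (fun b' z' hb' hz' => by
        have h3 := hme (Vt (Lt (d + 1)) n) (List (Ix (Lt (d + 1)) n) → Om (d + 1) N)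
          (fun W => kB (kNb b' t) true (0 : Lt (d + 1)) a W) (h0 + |a| * (n + 2) + b')
          (hKerT b' hb')
          (fun v v' => meas_kB (kNb b' t) (meas_kNb b' t) true 0 a v v') z'
          (([] : List (Ix (Lt (d + 1)) n)), 0) (([] : List (Ix (Lt (d + 1)) n)), 0) hz'
        have h4 : (fun W => Gr (HW (Op (kB (fun (ω : Om (d + 1) N) x y =>
            t (x + ph ω.1) (y + ph ω.1)) true (0 : Lt (d + 1)) a W)) b'
              (fun v : Vt (Lt (d + 1)) n => (W v.1).2 v.2)) z'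
            (([] : List (Ix (Lt (d + 1)) n)), 0) (([] : List (Ix (Lt (d + 1)) n)), 0)) =
            fun W => Gr (Op (kB (kNb b' t) true (0 : Lt (d + 1)) a W)) z'
              (([] : List (Ix (Lt (d + 1)) n)), 0) (([] : List (Ix (Lt (d + 1)) n)), 0) := by
          funext W
          rw [hEqT b' hb' W]
        rw [h4]
        exact h3)
      ((measurable_pi_apply (0 : Lt (d + 1))).comp
        (measurable_snd.comp (measurable_pi_apply ([] : List (Ix (Lt (d + 1)) n)))))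
      (by
        rw [law_root (by omega) ν ([] : List (Ix (Lt (d + 1)) n)) (0 : Lt (d + 1))
          (fun v => ENNReal.ofReal (v ^ 12)) (by fun_prop)]
        exact hms.2)
      b b0 hbb le_rfl z (g z) g1 hz3 g2 g3 g4
    simp only [← hEqT b0 (by linarith), ← hEqT b (by linarith)] at key
    refine key.trans ?_
    have h5 := H z hz1 hz2 hz3 hz4
    have h6 : (1 + ε1) * ∫ W, hu (GB (kNb (N := N) b t) true 0 a W z) (g z) ^ 2
        ∂(Measure.infinitePi fun _ : List (Ix (Lt (d + 1)) n) => PO (d + 1) N ν) ≤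
        (1 + ε1) * e := mul_le_mul_of_nonneg_left h5 (by linarith)
    have h7 : ∫ W, hu (Gr (Op (kB (kNb b t) true (0 : Lt (d + 1)) a W)) z
          (([] : List (Ix (Lt (d + 1)) n)), 0) (([] : List (Ix (Lt (d + 1)) n)), 0)) (g z) ^ 2
        ∂(Measure.infinitePi fun _ : List (Ix (Lt (d + 1)) n) => PO (d + 1) N ν) =
        ∫ W, hu (GB (kNb (N := N) b t) true 0 a W z) (g z) ^ 2
        ∂(Measure.infinitePi fun _ : List (Ix (Lt (d + 1)) n) => PO (d + 1) N ν) := rfl
    rw [h7]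
    linarith
  have hstep2 := hmain b0 (by linarith) le_rfl ν ((1 + ε1) * e + ε1) (by positivity)
    (by nlinarith) hstep1
  -- the network
  have hkn : Ker h1 (fun x y => t x y + a * kσ σ x y) := by
    refine ker_mono (ker_add ht.ker hnetσ.ker) ?_
    rw [hh1]
    linarith
  have hkN : ∀ ω : Om (d + 1) N', Ker h1 (fun x y => t (x + ph ω.1) (y + ph ω.1) +
      a * kσ σ (x + ph ω.1) (y + ph ω.1)) := fun ω => ker_shift hkn (ph ω.1)
  have hEqN : ∀ b' : ℝ, 0 ≤ b' → ∀ ω : Om (d + 1) N',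
      Op (kNb b' (fun x y => t x y + a * kσ σ x y) ω) =
        HW (Op (fun x y => t (x + ph ω.1) (y + ph ω.1) +
          a * kσ σ (x + ph ω.1) (y + ph ω.1))) b' ω.2 := by
    intro b' hb' ω
    rw [← (hopb.1 _ _ _ b' (hkN ω) hb' ω.2).2]
    rfl
  have hKerN : ∀ b' : ℝ, 0 ≤ b' → ∀ ω : Om (d + 1) N',
      Ker (h1 + b') (kNb b' (fun x y => t x y + a * kσ σ x y) ω) := by
    intro b' hb' ω
    exact (hopb.1 _ _ _ b' (hkN ω) hb' ω.2).1
  have hstep3 : PNb b N' (fun x y => t x y + a * kσ σ x y) ν g α β θ 1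
      ((1 + ε1) * ((1 + ε1) * ((1 + ε1) * e + ε1) + ε1) + ε1) := by
    intro z hz1 hz2 hz3 hz4
    obtain ⟨g1, g2, g3, g4⟩ := hg z hz1 hz2 hz3 hz4
    have key := hcl (Lt (d + 1)) (Om (d + 1) N') (PO (d + 1) N' ν)
      (fun ω => Op (fun x y => t (x + ph ω.1) (y + ph ω.1) +
          a * kσ σ (x + ph ω.1) (y + ph ω.1))) (fun ω => ω.2) (0 : Lt (d + 1))
      (fun ω => (hop _ _ _ (hkN ω)).2.2.1)
      (fun ω => (hop _ _ _ (hkN ω)).2.1)
      (fun b' z' hb' hz' => by
        have h3 := hme (Lt (d + 1)) (Om (d + 1) N')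
          (fun ω => kNb b' (fun x y => t x y + a * kσ σ x y) ω) (h1 + b')
          (hKerN b' hb') (meas_kNb b' _) z' 0 0 hz'
        have h4 : (fun ω : Om (d + 1) N' => Gr (HW (Op (fun x y => t (x + ph ω.1) (y + ph ω.1) +
            a * kσ σ (x + ph ω.1) (y + ph ω.1))) b' ω.2) z' (0 : Lt (d + 1)) 0) =
            fun ω => Gr (Op (kNb b' (fun x y => t x y + a * kσ σ x y) ω)) z' 0 0 := by
          funext ω
          rw [hEqN b' hb' ω]
        rw [h4]
        exact h3)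
      ((measurable_pi_apply (0 : Lt (d + 1))).comp measurable_snd)
      (by
        rw [law_site hN' ν (0 : Lt (d + 1)) (fun v => ENNReal.ofReal (v ^ 12)) (by fun_prop)]
        exact hms.2)
      b0 b le_rfl hbb z (g z) g1 hz3 g2 g3 g4
    simp only [← hEqN b0 (by linarith), ← hEqN b (by linarith)] at key
    refine key.trans ?_
    have h5 := hstep2 z hz1 hz2 hz3 hz4
    have h6 := mul_le_mul_of_nonneg_left h5 (show (0 : ℝ) ≤ 1 + ε1 by linarith)
    linarith
  exact hmono _ hfin hstep3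

end Pool.Agent.H619.GA
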